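import Pool.Agent.H121.SH.Iface
import Pool.Agent.H155.GA.RuA
import Pool.Agent.H870.GA.RuB
import Pool.Agent.H399.GA.Site
import Pool.Agent.H168.Y987.Op
import Pool.Agent.H962.UE.ResA

/-! SH-SCH: the Schur complement for the restricted Green functions (removal of one site). -/

set_option autoImplicit false

open scoped BigOperators InnerProductSpace Topology ENNReal
open Filter MeasureTheory

namespace Pool.Agent.H337.SH

open Pool.Agent.Y662.TR (LL dv dv_ne dv_self)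
open Pool.Agent.H987.Z (Rs)
open Pool.Agent.H987.Y (Ker Op)
open Pool.Agent.H121.UE (rk)
open Pool.Agent.H121.GA (GU RU Rf)
open Pool.Agent.H121.SH (Grf GR S_sch)
open Pool.Agent.H962.UE (Ker_rk rk_of_notMem)

variable {ι : Type} {K : ℕ} {t : ι → ι → ℝ} {N : ι → Finset ι}

theorem ker_of (h : Grf K t N) : Ker (K : ℝ) t := by
  have h0 : ∀ x, ∀ y ∉ N x, |t x y| = 0 := fun x y hy => by
    rw [abs_eq_zero]
    by_contra hne
    exact hy (h.nb x y hne)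
  refine ⟨Nat.cast_nonneg K, h.sy, fun x => summable_of_ne_finset_zero (h0 x), fun x => ?_⟩
  rw [tsum_eq_sum (h0 x)]
  calc ∑ y ∈ N x, |t x y| ≤ ∑ _y ∈ N x, (1 : ℝ) := Finset.sum_le_sum fun y _ => h.le x y
    _ = ((N x).card : ℝ) := by rw [Finset.sum_const, nsmul_eq_mul, mul_one]
    _ ≤ (K : ℝ) := by exact_mod_cast h.cd x

theorem op_ap (h : Grf K t N) (Ω : Set ι) (u : LL ι) (p : ι) :
    Op (rk Ω t) u p = ∑ w ∈ N p, ((rk Ω t p w : ℝ) : ℂ) * u w := by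
  have hop := Pool.Agent.H168.Y987.op ι (rk Ω t) K (Ker_rk (ker_of h) Ω)
  rw [(hop.1 u p).2]
  refine tsum_eq_sum fun w hw => ?_
  have h1 : rk Ω t p w = 0 := by
    unfold rk
    split_ifs
    · by_contra hne
      exact hw (h.nb p w hne)
    · rfl
  rw [h1, Complex.ofReal_zero, zero_mul]

theorem rs_op (h : Grf K t N) (Ω : Set ι) : Rs (Op (rk Ω t)) :=
  (Pool.Agent.H168.Y987.op ι (rk Ω t) K (Ker_rk (ker_of h) Ω)).2.2.1

theorem vz {z : ℂ} (hz : z.im ≠ 0) (a : ℝ) : (a : ℂ) - z ≠ 0 := by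
  intro h3
  apply hz
  have h4 := congrArg Complex.im h3
  rw [Complex.sub_im, Complex.ofReal_im, Complex.zero_im, zero_sub, neg_eq_zero] at h4
  exact h4

/-- the pointwise equation -/
theorem ru_pt (h : Grf K t N) (Ω : Set ι) (V : ι → ℝ) {z : ℂ} (hz : z.im ≠ 0) (f : LL ι) (p : ι) :
    ∑ w ∈ N p, ((rk Ω t p w : ℝ) : ℂ) * RU (Op (rk Ω t)) V z f w +
      ((V p : ℝ) : ℂ) * RU (Op (rk Ω t)) V z f p - z * RU (Op (rk Ω t)) V z f p = f p := by
  have h1 := (Pool.Agent.H155.GA.ruA ι _ (rs_op h Ω) V z hz).2.2.1 f p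
  rw [op_ap h] at h1
  exact h1

/-- uniqueness -/
theorem uq (h : Grf K t N) (Ω : Set ι) (V : ι → ℝ) {z : ℂ} (hz : z.im ≠ 0) (u f : LL ι)
    (hu : ∀ p, ∑ w ∈ N p, ((rk Ω t p w : ℝ) : ℂ) * u w + ((V p : ℝ) : ℂ) * u p - z * u p = f p) :
    u = RU (Op (rk Ω t)) V z f :=
  (Pool.Agent.H155.GA.ruA ι _ (rs_op h Ω) V z hz).2.2.2 f u fun p => by
    rw [op_ap h]
    exact hu p

theorem ru_zero (h : Grf K t N) (Ω : Set ι) (V : ι → ℝ) {z : ℂ} (hz : z.im ≠ 0) {p y : ι}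
    (hp : p ∉ Ω) (hy : y ∈ Ω) : RU (Op (rk Ω t)) V z (dv y) p = 0 := by
  have h1 := ru_pt h Ω V hz (dv y) p
  have hne : p ≠ y := by
    rintro rfl
    exact hp hy
  rw [dv_ne hne] at h1
  have h2 : ∑ w ∈ N p, ((rk Ω t p w : ℝ) : ℂ) * RU (Op (rk Ω t)) V z (dv y) w = 0 := by
    refine Finset.sum_eq_zero fun w _ => ?_
    rw [rk_of_notMem t hp, Complex.ofReal_zero, zero_mul]
  rw [h2, zero_add, ← sub_mul] at h1
  rcases mul_eq_zero.1 h1 with h3 | h3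
  · exact absurd h3 (vz hz (V p))
  · exact h3

theorem gr_eq (h : Grf K t N) (Ω : Set ι) (V : ι → ℝ) {z : ℂ} (hz : z.im ≠ 0) (p : ι) {y : ι}
    (hy : y ∈ Ω) : GR t V Ω z p y = RU (Op (rk Ω t)) V z (dv y) p := by
  unfold GR
  split_ifs with hc
  · rfl
  · exact (ru_zero h Ω V hz (fun hp => hc ⟨hp, hy⟩) hy).symm

theorem gr_0l (t : ι → ι → ℝ) (V : ι → ℝ) (Ω : Set ι) (z : ℂ) {p : ι} (hp : p ∉ Ω) (y : ι) :
    GR t V Ω z p y = 0 := by
  unfold GR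
  exact if_neg fun hc => hp hc.1

theorem gr_0r (t : ι → ι → ℝ) (V : ι → ℝ) (Ω : Set ι) (z : ℂ) (p : ι) {y : ι} (hy : y ∉ Ω) :
    GR t V Ω z p y = 0 := by
  unfold GR
  exact if_neg fun hc => hy hc.2

/-- the pointwise equation for the Green function -/
theorem gr_pt (h : Grf K t N) (Ω : Set ι) (V : ι → ℝ) {z : ℂ} (hz : z.im ≠ 0) {y : ι}
    (hy : y ∈ Ω) (p : ι) :
    ∑ w ∈ N p, ((rk Ω t p w : ℝ) : ℂ) * GR t V Ω z w y + ((V p : ℝ) : ℂ) * GR t V Ω z p y -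
      z * GR t V Ω z p y = dv y p := by
  have h2 : ∀ w, GR t V Ω z w y = RU (Op (rk Ω t)) V z (dv y) w := fun w => gr_eq h Ω V hz w hy
  simp only [h2]
  exact ru_pt h Ω V hz (dv y) p

theorem gr_V (h : Grf K t N) (Ω : Set ι) (V V' : ι → ℝ) {z : ℂ} (hz : z.im ≠ 0)
    (hV : ∀ p ∈ Ω, V' p = V p) (x y : ι) : GR t V' Ω z x y = GR t V Ω z x y := by
  by_cases hy : y ∈ Ω
  · rw [gr_eq h Ω V' hz x hy, gr_eq h Ω V hz x hy]
    have h1 : RU (Op (rk Ω t)) V' z (dv y) = RU (Op (rk Ω t)) V z (dv y) := by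
      refine uq h Ω V hz _ _ fun p => ?_
      have h2 := ru_pt h Ω V' hz (dv y) p
      by_cases hp : p ∈ Ω
      · rw [← hV p hp]
        exact h2
      · rw [ru_zero h Ω V' hz hp hy, mul_zero] at h2 ⊢
        exact h2
    rw [h1]
  · rw [gr_0r t V' Ω z x hy, gr_0r t V Ω z x hy]

theorem gr_sy (h : Grf K t N) (Ω : Set ι) (V : ι → ℝ) {z : ℂ} (hz : z.im ≠ 0) (x y : ι) :
    GR t V Ω z x y = GR t V Ω z y x := by
  by_cases hx : x ∈ Ω
  · by_cases hy : y ∈ Ω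
    · rw [gr_eq h Ω V hz x hy, gr_eq h Ω V hz y hx]
      exact (Pool.Agent.H870.GA.ruB Pool.Agent.H155.GA.ruA ι _ (rs_op h Ω) V).sy z hz x y
    · rw [gr_0r t V Ω z x hy, gr_0l t V Ω z hy x]
  · rw [gr_0l t V Ω z hx y, gr_0r t V Ω z y hx]

/-- the coupling of `x` to the Green function without `x` -/
noncomputable def AA (t : ι → ι → ℝ) (N : ι → Finset ι) (V : ι → ℝ) (Ω : Set ι) (z : ℂ) (x y : ι) :
    ℂ := ∑ w ∈ N x, ((t x w : ℝ) : ℂ) * GR t V (Ω \ {x}) z w y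

theorem rk_pos (t : ι → ι → ℝ) {Ω : Set ι} {x y : ι} (hx : x ∈ Ω) (hy : y ∈ Ω) :
    rk Ω t x y = t x y := by
  unfold rk
  exact if_pos ⟨hx, hy⟩

theorem g1_pt (h : Grf K t N) (Ω : Set ι) (V : ι → ℝ) {z : ℂ} (hz : z.im ≠ 0) {x : ι} (hx : x ∈ Ω)
    {w : ι} (hw : w ∈ Ω \ {x}) (p : ι) :
    ∑ v ∈ N p, ((rk Ω t p v : ℝ) : ℂ) * GR t V (Ω \ {x}) z v w +
      ((V p : ℝ) : ℂ) * GR t V (Ω \ {x}) z p w - z * GR t V (Ω \ {x}) z p w =
      dv w p + AA t N V Ω z x w * dv x p := by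
  by_cases hp : p = x
  · subst hp
    have hne : p ≠ w := fun he => hw.2 he.symm
    rw [gr_0l t V (Ω \ {p}) z (fun hc => hc.2 rfl) w, dv_self, dv_ne hne, mul_zero, mul_zero,
      mul_one, add_zero, sub_zero, zero_add]
    unfold AA
    refine Finset.sum_congr rfl fun v _ => ?_
    by_cases hv : v ∈ Ω
    · rw [rk_pos t hx hv]
    · rw [gr_0l t V (Ω \ {p}) z (fun hc => hv hc.1) w, mul_zero, mul_zero]
  · rw [dv_ne hp, mul_zero, add_zero, ← gr_pt h (Ω \ {x}) V hz hw p]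
    have h1 : ∑ v ∈ N p, ((rk Ω t p v : ℝ) : ℂ) * GR t V (Ω \ {x}) z v w =
        ∑ v ∈ N p, ((rk (Ω \ {x}) t p v : ℝ) : ℂ) * GR t V (Ω \ {x}) z v w := by
      refine Finset.sum_congr rfl fun v _ => ?_
      by_cases hv : v ∈ Ω \ {x}
      · by_cases hpo : p ∈ Ω
        · rw [rk_pos t hpo hv.1, rk_pos t (show p ∈ Ω \ {x} from ⟨hpo, hp⟩) hv]
        · rw [rk_of_notMem t hpo, rk_of_notMem t (fun hc => hpo hc.1)]
      · rw [gr_0l t V (Ω \ {x}) z hv w, mul_zero, mul_zero]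
    rw [h1]

/-- the Green function without `x` in terms of the Green function -/
theorem g1_eq (h : Grf K t N) (Ω : Set ι) (V : ι → ℝ) {z : ℂ} (hz : z.im ≠ 0) {x : ι} (hx : x ∈ Ω)
    {w : ι} (hw : w ∈ Ω \ {x}) (p : ι) :
    GR t V (Ω \ {x}) z p w = GR t V Ω z p w + AA t N V Ω z x w * GR t V Ω z p x := by
  have h1 : RU (Op (rk (Ω \ {x}) t)) V z (dv w) =
      RU (Op (rk Ω t)) V z (dv w + AA t N V Ω z x w • dv x) := by
    refine uq h Ω V hz _ _ fun p => ?_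
    have h2 := g1_pt h Ω V hz hx hw p
    have h3 : ∀ v, GR t V (Ω \ {x}) z v w = RU (Op (rk (Ω \ {x}) t)) V z (dv w) v :=
      fun v => gr_eq h (Ω \ {x}) V hz v hw
    simp only [h3] at h2
    rw [lp.coeFn_add, Pi.add_apply, lp.coeFn_smul, Pi.smul_apply, smul_eq_mul]
    exact h2
  rw [gr_eq h (Ω \ {x}) V hz p hw, gr_eq h Ω V hz p hw.1, gr_eq h Ω V hz p hx, h1, map_add,
    map_smul, lp.coeFn_add, Pi.add_apply, lp.coeFn_smul, Pi.smul_apply, smul_eq_mul]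

theorem AA_zero (t : ι → ι → ℝ) (N : ι → Finset ι) (V : ι → ℝ) (Ω : Set ι) (z : ℂ) (x : ι) {y : ι}
    (hy : y ∉ Ω \ {x}) : AA t N V Ω z x y = 0 := by
  unfold AA
  refine Finset.sum_eq_zero fun w _ => ?_
  rw [gr_0r t V (Ω \ {x}) z w hy, mul_zero]

/-- the second formula -/
theorem off (h : Grf K t N) (Ω : Set ι) (V : ι → ℝ) {z : ℂ} (hz : z.im ≠ 0) {x : ι} (hx : x ∈ Ω)
    {y : ι} (hy : y ≠ x) : GR t V Ω z x y = -(GR t V Ω z x x * AA t N V Ω z x y) := by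
  by_cases hyo : y ∈ Ω
  · have h1 := g1_eq h Ω V hz hx (show y ∈ Ω \ {x} from ⟨hyo, hy⟩) x
    rw [gr_0l t V (Ω \ {x}) z (fun hc => hc.2 rfl) y] at h1
    rw [eq_neg_iff_add_eq_zero, mul_comm (GR t V Ω z x x)]
    exact h1.symm
  · rw [gr_0r t V Ω z x hyo, AA_zero t N V Ω z x (fun hc => hyo hc.1), mul_zero, neg_zero]

/-- **SH-SCH.** -/
theorem sch : S_sch := by
  intro ι K t N h V Ω z hz
  have hz' : z.im ≠ 0 := hz.ne'
  refine ⟨gr_sy h Ω V hz', fun V' hV x y => gr_V h Ω V V' hz' hV x y, fun x y => ?_, ?_⟩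
  · unfold GR
    split_ifs with hc
    · exact ((Pool.Agent.H399.GA.site Pool.Agent.H155.GA.ruA ι _ (rs_op h Ω)).1 V z x y hz).2.2
    · rw [norm_zero]
      positivity
  · intro x hx
    have hsite := (Pool.Agent.H399.GA.site Pool.Agent.H155.GA.ruA ι _ (rs_op h Ω)).1 V z x x hz
    refine ⟨?_, ?_, fun y hy => off h Ω V hz' hx hy, ?_⟩
    · rw [gr_eq h Ω V hz' x hx]
      exact hsite.1
    · have h1 := gr_pt h Ω V hz' hx x
      rw [dv_self] at h1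
      have h2 : ∑ w ∈ N x, ((rk Ω t x w : ℝ) : ℂ) * GR t V Ω z w x =
          -(GR t V Ω z x x * ∑ w ∈ N x, ∑ w' ∈ N x,
            ((t x w : ℝ) : ℂ) * ((t x w' : ℝ) : ℂ) * GR t V (Ω \ {x}) z w w') := by
        rw [Finset.mul_sum, ← Finset.sum_neg_distrib]
        refine Finset.sum_congr rfl fun w hw => ?_
        have hne : w ≠ x := fun he => h.nx x (he ▸ hw)
        have h3 : ((rk Ω t x w : ℝ) : ℂ) * GR t V Ω z w x = ((t x w : ℝ) : ℂ) * GR t V Ω z w x := by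
          by_cases hwo : w ∈ Ω
          · rw [rk_pos t hx hwo]
          · rw [gr_0l t V Ω z hwo x, mul_zero, mul_zero]
        rw [h3, gr_sy h Ω V hz' w x, off h Ω V hz' hx hne]
        have h4 : ∑ w' ∈ N x, ((t x w : ℝ) : ℂ) * ((t x w' : ℝ) : ℂ) * GR t V (Ω \ {x}) z w w' =
            ((t x w : ℝ) : ℂ) * AA t N V Ω z x w := by
          unfold AA
          rw [Finset.mul_sum]
          refine Finset.sum_congr rfl fun w' _ => ?_
          rw [gr_sy h (Ω \ {x}) V hz' w w', mul_assoc]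
        rw [h4]
        ring
      rw [h2] at h1
      linear_combination h1
    · intro p q hp hq
      show GR t V Ω z p q = GR t V (Ω \ {x}) z p q + AA t N V Ω z x p * AA t N V Ω z x q *
        GR t V Ω z x x
      by_cases hqo : q ∈ Ω
      · have h1 := g1_eq h Ω V hz' hx (show q ∈ Ω \ {x} from ⟨hqo, hq⟩) p
        rw [gr_sy h Ω V hz' p x, off h Ω V hz' hx hp] at h1
        linear_combination -h1
      · rw [gr_0r t V Ω z p hqo, gr_0r t V (Ω \ {x}) z p (fun hc => hqo hc.1),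
          AA_zero t N V Ω z x (y := q) (fun hc => hqo hc.1), mul_zero, zero_mul, add_zero]

end Pool.Agent.H337.SH
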